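import Pool.Agent.Lib.MP_5fcc10_co_lin.MidDefs
import Pool.Agent.Lib.MP_5fcc10_co_lin.Deg

/-! The size of the balls of the first half of a class, and the degrees of the first half. -/

set_option linter.unusedSectionVars false

namespace Pool.Agent.SK.Lin.H53

open Finset
open scoped symmDiff
open Pool.Agent.SK Pool.Agent.SK.Lin

variable {n p : ℕ} {k : ℕ}

lemma opn0_one {c : Lb p} {ψ : Ix n → Lb p} {v : Finset (Fin n)} {e : Fin n}
    (h : op0 c ψ v e) : opn0 c ψ v e = 1 := by
  unfold opn0; simp only; rw [if_pos h]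

lemma opn0_zero {c : Lb p} {ψ : Ix n → Lb p} {v : Finset (Fin n)} {e : Fin n}
    (h : ¬ op0 c ψ v e) : opn0 c ψ v e = 0 := by
  unfold opn0; simp only; rw [if_neg h]

lemma op0_of_ne {c : Lb p} {ψ : Ix n → Lb p} {v : Finset (Fin n)} {e : Fin n}
    (h : opn0 c ψ v e ≠ 0) : op0 c ψ v e := by
  by_contra hcon; exact h (opn0_zero hcon)

lemma opn0_eq_of_iff {c : Lb p} {ψ ψ' : Ix n → Lb p} {v v' : Finset (Fin n)} {e e' : Fin n}
    (h : op0 c ψ v e ↔ op0 c ψ' v' e') : opn0 c ψ v e = opn0 c ψ' v' e' := by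
  by_cases h1 : op0 c ψ v e
  · rw [opn0_one h1, opn0_one (h.1 h1)]
  · rw [opn0_zero h1, opn0_zero (fun h2 => h1 (h.2 h2))]

lemma opn0_congr {c : Lb p} {ψ ψ' : Ix n → Lb p} {v : Finset (Fin n)} {e : Fin n}
    (h1 : ψ (v, none) = ψ' (v, none)) (h2 : ψ (tg v e, none) = ψ' (tg v e, none))
    (h3 : ψ (ed v e) = ψ' (ed v e)) : opn0 c ψ v e = opn0 c ψ' v e := by
  apply opn0_eq_of_iff
  unfold op0 opP col ty bt
  rw [h1, h2, h3]

lemma PiL_const (t : ℕ) (b : ℝ) (l : ℕ) : ∀ c, PiL t (fun _ => b) l c = b ^ l := by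
  induction l with
  | zero => intro c; simp [PiL]
  | succ l ih =>
    intro c
    change b * PiL t (fun _ => b) l (oth t c) = b ^ (l + 1)
    rw [ih, pow_succ]; ring

lemma mem_KB_succ {cl : Lb p} {ψ : Ix n → Lb p} {r w : Finset (Fin n)} {j : ℕ} :
    w ∈ KB k cl ψ r (j + 1) ↔ w ∈ KB k cl ψ r j ∨
      ∃ v ∈ KB k cl ψ r j, ∃ e ∈ nb k v, op0 cl ψ v e ∧ w = tg v e := by
  classical
  simp only [KB, mem_filter, mem_univ, true_and]

lemma KB_of_cnt (cl : Lb p) (ψ : Ix n → Lb p) (r : Finset (Fin n)) (l : ℕ) :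
    ∀ (v U w : Finset (Fin n)) (j : ℕ), v ∈ KB k cl ψ r j →
      cnt k (opn0 cl ψ) l v U w ≠ 0 → w ∈ KB k cl ψ r (j + l) := by
  induction l with
  | zero =>
    intro v U w j hv h
    have : v = w := by
      by_contra hne
      apply h
      change (if v = w then (1:ℝ) else 0) = 0
      rw [if_neg hne]
    rw [← this]; exact hv
  | succ l ih =>
    intro v U w j hv h
    rw [cnt_succ] at h
    obtain ⟨e, he, hne⟩ := exists_ne_zero_of_sum_ne_zero h
    have h1 := (mem_sdiff.1 he).1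
    have h2 : op0 cl ψ v e := op0_of_ne (left_ne_zero_of_mul hne)
    have h3 := right_ne_zero_of_mul hne
    have h4 : tg v e ∈ KB k cl ψ r (j + 1) := mem_KB_succ.2 (Or.inr ⟨v, hv, e, h1, h2, rfl⟩)
    have h5 := ih (tg v e) (insert e U) w (j + 1) h4 h3
    have : j + (l + 1) = j + 1 + l := by omega
    rw [this]; exact h5

theorem ball_size (cl : Lb p) (ψ : Ix n → Lb p) (ρ : ℕ) (b : ℝ)
    (hb : 2 * (ρ : ℝ) ≤ b) (hdeg : ∀ v, inL k v → b ≤ dg k (opn0 cl ψ) v)
    (r : Finset (Fin n)) (hr : inL k r) :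
    (b / 2) ^ ρ / ρ.factorial ≤ ((KB k cl ψ r ρ).card : ℝ) := by
  rcases Nat.eq_zero_or_pos ρ with h0 | h0
  · subst h0
    have : KB k cl ψ r 0 = {r} := rfl
    rw [this, card_singleton]
    simp
  have hρ : (1:ℝ) ≤ ρ := by exact_mod_cast h0
  have hb0 : 0 < b := by linarith
  have h1 := NO_ge k (opn0 cl ψ) (fun _ => b) (fun _ => hb0) (1 / 2) (by norm_num) ρ
    (fun v hv => by have := hdeg v hv; linarith) ρ r ∅ hr (by simp)
  rw [PiL_const, ← sum_cnt] at h1
  have h2 : ∑ w : Finset (Fin n), cnt k (opn0 cl ψ) ρ r ∅ w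
      ≤ ∑ w : Finset (Fin n), if w ∈ KB k cl ψ r ρ then (ρ.factorial : ℝ) else 0 := by
    refine sum_le_sum (fun w _ => ?_)
    by_cases hc : cnt k (opn0 cl ψ) ρ r ∅ w = 0
    · rw [hc]; split_ifs <;> positivity
    · have h3 := KB_of_cnt (k := k) cl ψ r ρ r ∅ w 0 (mem_singleton_self r) hc
      rw [zero_add] at h3
      rw [if_pos h3]
      exact cnt_le _ _ _ _ _ _
  have h3 : ∑ w : Finset (Fin n), (if w ∈ KB k cl ψ r ρ then (ρ.factorial : ℝ) else 0)
      = (KB k cl ψ r ρ).card * (ρ.factorial : ℝ) := by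
    rw [sum_ite_mem, univ_inter, sum_const, nsmul_eq_mul]
  rw [h3] at h2
  rw [div_le_iff₀ (by positivity)]
  calc (b / 2) ^ ρ = (1 / 2) ^ ρ * b ^ ρ := by rw [← mul_pow]; congr 1; ring
    _ ≤ _ := h1
    _ ≤ _ := h2

lemma sum_one_lb [NeZero p] (c : Lb p) : ∑ b : Lb p, (if b = c then (1:ℝ) else 0) = 1 := by
  rw [sum_ite_eq' univ c, if_pos (mem_univ _)]

/-- the average of the indicator of the first half of a class when the label of the base point is
frozen -/
lemma E_opn0_mix [NeZero p] (cl : Lb p) (v : Finset (Fin n)) (e : Fin n) (ψ : Ix n → Lb p) :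
    E (fun φ : Ix n → Lb p => opn0 cl (mix (univ.erase (v, none)) φ ψ) v e) = 1 / (4 * p) := by
  classical
  have hne1 : ((tg v e, none) : Ix n) ≠ (v, none) := by
    intro h
    have h1 : tg v e = v := congrArg Prod.fst h
    have : e ∈ tg v e ↔ e ∈ v := by rw [h1]
    rw [mem_tg] at this
    tauto
  have hne2 : ed v e ≠ (v, none) := by
    intro h
    have := congrArg Prod.snd h
    simp [ed] at this
  have h0 : ∀ φ : Ix n → Lb p, opn0 cl (mix (univ.erase (v, none)) φ ψ) v e
      = (if φ (ed v e) = (cl.1, 0) then (1:ℝ) else 0)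
        * (if (φ (tg v e, none)).2 = cl.2 + (pos v e + bt ψ v) then (1:ℝ) else 0) := by
    intro φ
    have two : ∀ a b x : ZMod 2, (a + b + x = cl.2 ↔ x = cl.2 + (a + b)) := by
      have h2 : ∀ c a b x : ZMod 2, (a + b + x = c ↔ x = c + (a + b)) := by decide
      exact h2 cl.2
    have hiff : op0 cl (mix (univ.erase (v, none)) φ ψ) v e ↔
        φ (ed v e) = (cl.1, 0) ∧ (φ (tg v e, none)).2 = cl.2 + (pos v e + bt ψ v) := by
      unfold op0 opP col ty bt
      rw [mix_erase_ne hne1, mix_erase_ne hne2, mix_erase_self, two, Prod.ext_iff]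
      simp only
      tauto
    by_cases h : op0 cl (mix (univ.erase (v, none)) φ ψ) v e
    · rw [opn0_one h, if_pos (hiff.1 h).1, if_pos (hiff.1 h).2, mul_one]
    · rw [opn0_zero h]
      rw [hiff, not_and_or] at h
      rcases h with h | h
      · rw [if_neg h, zero_mul]
      · rw [if_neg h, mul_zero]
  rw [E_congr h0]
  rw [E_mul (S := {ed v e}) (T := {(tg v e, none)})
    (f := fun φ : Ix n → Lb p => (if φ (ed v e) = (cl.1, 0) then (1:ℝ) else 0))
    (h := fun φ : Ix n → Lb p =>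
      (if (φ (tg v e, none)).2 = cl.2 + (pos v e + bt ψ v) then (1:ℝ) else 0))]
  · rw [E_coord (ed v e) (fun b : Lb p => if b = (cl.1, 0) then (1:ℝ) else 0),
      E_coord ((tg v e, none) : Ix n)
        (fun b : Lb p => if b.2 = cl.2 + (pos v e + bt ψ v) then (1:ℝ) else 0),
      sum_one_lb, sum_snd, card_Lb]
    have : (p:ℝ) ≠ 0 := by exact_mod_cast NeZero.ne p
    field_simp
    norm_num
  · intro φ φ' h
    simp only [h (ed v e) (mem_singleton_self _)]
  · intro φ φ' h
    simp only [h (tg v e, none) (mem_singleton_self _)]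
  · rw [disjoint_singleton]
    intro h
    have := congrArg Prod.snd h
    simp [ed] at this

theorem dg0_tail [NeZero p] (cl : Lb p) (v : Finset (Fin n)) (d : ℝ)
    (hd : d = ((nb k v).card : ℝ) / (4 * p)) (hd0 : 0 < d) :
    P (fun ψ : Ix n → Lb p => dg k (opn0 cl ψ) v < d / 2) ≤ 2 * Real.exp (-(d / 16)) := by
  classical
  have hp0 : (0:ℝ) < p := by exact_mod_cast Nat.pos_of_ne_zero (NeZero.ne p)
  have hp1 : (1:ℝ) ≤ p := by exact_mod_cast Nat.pos_of_ne_zero (NeZero.ne p)
  have hδ0 : (0:ℝ) < 1 / (4 * p) := by positivity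
  have hδ1 : 1 / (4 * (p:ℝ)) ≤ 1 := by rw [div_le_one (by positivity)]; linarith
  have htb := tail_bound (V := Ix n) (κ := Lb p) (univ.erase (v, none)) (nb k v)
    (fun e => {(tg v e, none), ed v e}) ?_ (fun e ψ => opn0 cl ψ v e - 1 / (4 * p)) ?_ 1 ?_ ?_
    (fun _ _ => 1 / (4 * p)) ?_ d hd0 ?_ (1 / 2 * d) (by positivity) (by nlinarith)
  · have h1 : ∀ ψ : Ix n → Lb p, ∑ e ∈ nb k v, (opn0 cl ψ v e - 1 / (4 * p))
        = dg k (opn0 cl ψ) v - d := by
      intro ψ
      rw [sum_sub_distrib, sum_const, nsmul_eq_mul, hd]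
      unfold dg
      ring
    simp only [h1] at htb
    refine (P_mono (fun ψ hψ => ?_)).trans (htb.trans (le_of_eq ?_))
    · rw [lt_abs]; right; linarith
    · congr 3
      field_simp
      norm_num
  · intro e _ f _ hef
    rw [Finset.disjoint_left]
    intro a ha hb
    simp only [mem_insert, mem_singleton] at ha hb
    have htg : tg v e ≠ tg v f := by
      intro h
      apply hef
      by_contra hne
      have h1 : e ∈ tg v e ↔ e ∈ tg v f := by rw [h]
      rw [mem_tg, mem_tg] at h1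
      tauto
    rcases ha with ha | ha <;> rcases hb with hb | hb
    · exact htg (congrArg Prod.fst (ha.symm.trans hb))
    · have := congrArg Prod.snd (ha.symm.trans hb)
      simp [ed] at this
    · have := congrArg Prod.snd (hb.symm.trans ha)
      simp [ed] at this
    · have := congrArg Prod.snd (ha.symm.trans hb)
      simp [ed] at this
      exact hef this
  · intro e _ ψ φ φ' h
    simp only
    congr 1
    have hne1 : ((tg v e, none) : Ix n) ≠ (v, none) := by
      intro h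
      have h1 : tg v e = v := congrArg Prod.fst h
      have : e ∈ tg v e ↔ e ∈ v := by rw [h1]
      rw [mem_tg] at this
      tauto
    have hne2 : ed v e ≠ (v, none) := by
      intro h
      have := congrArg Prod.snd h
      simp [ed] at this
    apply opn0_congr
    · rw [mix_erase_self, mix_erase_self]
    · rw [mix_erase_ne hne1, mix_erase_ne hne1]
      exact h _ (by simp)
    · rw [mix_erase_ne hne2, mix_erase_ne hne2]
      exact h _ (by simp)
  · intro e _ ψ
    have h0 := (opn0 cl ψ).h0 v e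
    have h1 := (opn0 cl ψ).h1 v e
    rw [abs_le]
    constructor <;> linarith
  · intro e _ ψ
    rw [E_sub (fun φ => opn0 cl (mix (univ.erase (v, none)) φ ψ) v e), E_opn0_mix, E_const,
      sub_self]
  · intro e _ ψ
    have h1 : ∀ φ : Ix n → Lb p, (opn0 cl (mix (univ.erase (v, none)) φ ψ) v e - 1 / (4 * p)) ^ 2
        = (1 - 2 * (1 / (4 * p))) * opn0 cl (mix (univ.erase (v, none)) φ ψ) v e
          + (1 / (4 * p)) ^ 2 := by
      intro φ
      by_cases h : op0 cl (mix (univ.erase (v, none)) φ ψ) v e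
      · rw [opn0_one h]; ring
      · rw [opn0_zero h]; ring
    rw [E_congr h1, E_add (fun φ => (1 - 2 * (1 / (4 * (p:ℝ)))) *
      opn0 cl (mix (univ.erase (v, none)) φ ψ) v e), E_mul_left, E_opn0_mix, E_const]
    nlinarith
  · intro ψ
    rw [sum_const, nsmul_eq_mul, hd]
    apply le_of_eq; ring

theorem dg0_dep (cl : Lb p) (v : Finset (Fin n)) (c : ℝ) :
    Dep (fun ψ : Ix n → Lb p => dg k (opn0 cl ψ) v < c) (hamI v 1) := by
  intro φ ψ h
  simp only
  have h1 : dg k (opn0 cl φ) v = dg k (opn0 cl ψ) v := by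
    unfold dg
    refine sum_congr rfl (fun e _ => ?_)
    apply opn0_congr
    · exact h _ (mem_hamI_none.2 (ham_self v 1))
    · exact h _ (mem_hamI_none.2 (tg_mem_ham v e))
    · exact h _ (ed_mem_hamI (ham_self v 1) (tg_mem_ham v e))
  rw [h1]

end Pool.Agent.SK.Lin.H53
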